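import Pool.Agent.Helper61.FN.Goals

/-!
# Packet FN-AFN (project FN, MP_06d934_gt): type `A₃`, finiteness over any ordered field
-/

set_option autoImplicit false

namespace Pool.Agent.Helper14.FN

open Finset Pool.Agent.Helper61.FN

theorem goalAFN (hP : G_PLC) (hN : G_NRM) (hA : G_ACL) : G_AFN := by
  intro F _ _ _ n lam hn hlam
  by_contra hfin
  have hsum : ∀ j : Fin 18, ∑ e, mA j e = -1 := by decide
  obtain ⟨k, i1, i2, u, ξ, hplc⟩ := hP F (Fin 6) (Fin 18) mA (cA n) (dA n) lam hlam hsum hfin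
  have hd : ∀ e, 0 < dA n e := by
    intro e
    have h0 := hn 0
    have h1 := hn 1
    have h2 := hn 2
    have h3 := hn 3
    fin_cases e <;> simp [dA] <;> positivity
  have hs : ∀ e : Fin 6, ∃ j : Fin 18, mA j = Pi.single e (-1) := by decide
  obtain ⟨v, M, hnrm⟩ := hN F (Fin 6) (Fin 18) k mA (cA n) (dA n) lam u ξ hsum hd hlam hs hplc
  exact hA F k n lam v M ξ ⟨hn, hnrm⟩

end Pool.Agent.Helper14.FN
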